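import Pool.Agent.LRS.Stmts

/-!
# Row AVE of squad LRS: the norm to a subfield as an endomorphism of the unit group
-/

set_option autoImplicit false

open NumberField

namespace Pool.Agent.LRS.H90

/-- The formula for the conjugates of the relative norm. -/
theorem log_norm (K : Type) [Field K] [NumberField K] (E : IntermediateField ℚ K) (σ : K →+* ℂ)
    (x : K) (hx : x ≠ 0) :
    Real.log ‖σ (algebraMap E K (Algebra.norm E x))‖ =
      ∑ᶠ τ ∈ {τ : K →+* ℂ | ∀ b ∈ E, τ b = σ b}, Real.log ‖τ x‖ := by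
  let _ : Algebra E ℂ := (σ.comp (algebraMap E K)).toAlgebra
  have h1 : σ (algebraMap E K (Algebra.norm E x)) = ∏ τ : K →ₐ[E] ℂ, τ x :=
    Algebra.norm_eq_prod_embeddings E ℂ x
  have hr : {τ : K →+* ℂ | ∀ b ∈ E, τ b = σ b} =
      Set.range (fun τ : K →ₐ[E] ℂ => (τ : K →+* ℂ)) := by
    ext τ
    constructor
    · intro h
      refine ⟨{ toRingHom := τ, commutes' := ?_ }, ?_⟩
      · intro b
        exact h b b.2
      · ext y
        rfl
    · rintro ⟨τ', rfl⟩ b hb
      exact τ'.commutes ⟨b, hb⟩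
  have hinj : Function.Injective (fun τ : K →ₐ[E] ℂ => (τ : K →+* ℂ)) := by
    intro a b hab
    ext y
    exact congrFun (congrArg (fun g : K →+* ℂ => (g : K → ℂ)) hab) y
  rw [hr, finsum_mem_range hinj, finsum_eq_sum_of_fintype, h1, norm_prod, Real.log_prod]
  · rfl
  · intro τ _
    exact norm_ne_zero_iff.mpr ((map_ne_zero τ).mpr hx)

/-- Every embedding of a subfield extends. -/
theorem extend (K : Type) [Field K] [NumberField K] (E : IntermediateField ℚ K) (φ : E →+* ℂ) :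
    ∃ σ : K →+* ℂ, ∀ b : E, σ (algebraMap E K b) = φ b := by
  let _ : Algebra E ℂ := φ.toAlgebra
  exact ⟨(IsAlgClosed.lift : K →ₐ[E] ℂ), fun b => (IsAlgClosed.lift : K →ₐ[E] ℂ).commutes b⟩

/-- The norm to a subfield on units. -/
noncomputable def normU (K : Type) [Field K] [NumberField K] (E : IntermediateField ℚ K) :
    (𝓞 K)ˣ →* (𝓞 K)ˣ :=
  (Units.map (algebraMap (𝓞 E) (𝓞 K) : 𝓞 E →* 𝓞 K)).comp
    (Units.map (RingOfIntegers.norm E : 𝓞 K →* 𝓞 E))

theorem normU_coe (K : Type) [Field K] [NumberField K] (E : IntermediateField ℚ K) (u : (𝓞 K)ˣ) :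
    ((normU K E u : 𝓞 K) : K) = algebraMap E K (Algebra.norm E ((u : 𝓞 K) : K)) := by
  rfl

theorem ave : AveStmt := by
  intro K _ _ E
  refine ⟨normU K E, normU_coe K E, ?_, ?_⟩
  · intro u σ
    rw [normU_coe]
    exact log_norm K E σ _ (RingOfIntegers.coe_ne_zero_iff.mpr u.ne_zero)
  · intro u h
    have hu0 : ((u : 𝓞 K) : K) ≠ 0 := RingOfIntegers.coe_ne_zero_iff.mpr u.ne_zero
    have hint : IsIntegral ℤ (Algebra.norm E ((u : 𝓞 K) : K)) :=
      Algebra.isIntegral_norm E (RingOfIntegers.isIntegral_coe (u : 𝓞 K))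
    obtain ⟨m, hm, he⟩ := NumberField.Embeddings.pow_eq_one_of_norm_eq_one E ℂ hint (by
      intro φ
      obtain ⟨σ, hσ⟩ := extend K E φ
      have h1 := log_norm K E σ _ hu0
      rw [h σ, hσ] at h1
      have h2 : 0 < ‖φ (Algebra.norm E ((u : 𝓞 K) : K))‖ :=
        norm_pos_iff.mpr ((map_ne_zero φ).mpr (Algebra.norm_ne_zero_iff.mpr hu0))
      exact Real.eq_one_of_pos_of_log_eq_zero h2 h1)
    exact ⟨m, hm, he⟩

end Pool.Agent.LRS.H90
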